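import Mathlib
import Pool.Agent.T6.H47.AP7

set_option autoImplicit false

/-!
# Montgomery's `ℓ^q` inequality for coefficients supported on arithmetic progressions

Q1 asks for `∑_{1 ≤ t ≤ T} |D(t)|^p ≤ C N^ε (N^p + T N^(p/2))`, `D(t) = ∑_{N ≤ n ≤ 2N} b_n n^{it}`,
`|b_n| ≤ 1`. Here it is proved, for all real `p ≥ 2`, all `N ≤ T ≤ N^A` and all coefficients bounded
by `1`, when the coefficients vanish outside an arithmetic progression of difference `m ≥ N^θ` with at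
most `B N^(e(θ))` terms, `e(θ) = (θ + √(3 - 2θ))/2`, `0 ≤ θ ≤ 1/9` (in a short interval of length
`N^(√3/2)`, for `θ = 0`); since `e(1/9) = 8/9` the inequality holds for all coefficients supported on
a residue class modulo `m`, for every `m ≥ N^(1/9)`.

Proof: interpolation between the moments of order `2j` and `2j + 2`, `N^j ≤ T ≤ N^(j+1)`. For `j = 1`
the fourth moment is bounded by the number of the near coincidences `|n₁n₂ - n₃n₄| ≤ Δ` in the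
progression.
-/

namespace Pool.Agent.Results.MP_2a1f0e_nt.ArithmeticProgressions

open Finset

/-- `D(t) = ∑_{N ≤ n ≤ 2N} b_n n^{it}` -/
noncomputable def D (N : ℕ) (b : ℕ → ℂ) (t : ℝ) : ℂ :=
  ∑ n ∈ Icc N (2 * N), b n * (n : ℂ) ^ ((t : ℂ) * Complex.I)

/-- the exponent -/
noncomputable def e (θ : ℝ) : ℝ := (θ + Real.sqrt (3 - 2 * θ)) / 2

theorem D_eq (N : ℕ) (hN : 1 ≤ N) (b : ℕ → ℂ) (t : ℝ) :
    D N b t = Pool.Agent.T6.H47.AP.DD N b t := by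
  unfold D Pool.Agent.T6.H47.AP.DD
  apply sum_congr rfl
  intro n hn
  have hn0 : (n : ℂ) ≠ 0 := by exact_mod_cast (by have := (mem_Icc.1 hn).1; omega : n ≠ 0)
  congr 1
  unfold Pool.Agent.TH705.DL.ph
  rw [Complex.cpow_def_of_ne_zero hn0, ← Complex.natCast_log]
  congr 1
  push_cast
  ring

/-- **Main theorem.** -/
theorem result (p A ε : ℝ) (hp : 2 ≤ p) (hε : 0 < ε) :
    (∀ θ B : ℝ, 0 ≤ θ → θ ≤ 1 / 9 → ∃ K : ℝ, ∀ N T a m H : ℕ, 1 ≤ N → N ≤ T → (T : ℝ) ≤ (N : ℝ) ^ A →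
      (N : ℝ) ^ θ ≤ m → (H : ℝ) ≤ B * (N : ℝ) ^ e θ →
      ∀ b : ℕ → ℂ, (∀ n ∈ Icc N (2 * N), ‖b n‖ ≤ 1) →
        (∀ n ∈ Icc N (2 * N), b n ≠ 0 → ∃ h < H, n = a + m * h) →
        ∑ t ∈ Icc 1 T, ‖D N b (t : ℝ)‖ ^ p ≤
          K * (N : ℝ) ^ ε * ((N : ℝ) ^ p + T * (N : ℝ) ^ (p / 2))) ∧
    (∃ K : ℝ, ∀ N T m c : ℕ, 1 ≤ N → N ≤ T → (T : ℝ) ≤ (N : ℝ) ^ A → (N : ℝ) ^ (1 / 9 : ℝ) ≤ m →
      ∀ b : ℕ → ℂ, (∀ n ∈ Icc N (2 * N), ‖b n‖ ≤ 1) →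
        (∀ n ∈ Icc N (2 * N), b n ≠ 0 → n ≡ c [MOD m]) →
        ∑ t ∈ Icc 1 T, ‖D N b (t : ℝ)‖ ^ p ≤
          K * (N : ℝ) ^ ε * ((N : ℝ) ^ p + T * (N : ℝ) ^ (p / 2))) := by
  refine ⟨?_, ?_⟩
  · intro θ B h0 h1
    obtain ⟨K, hK⟩ := Pool.Agent.T6.H47.AP.main' θ h0 h1 p A ε B hp hε
    refine ⟨K, ?_⟩
    intro N T a m H hN hNT hTA hm hH b hb hs
    have h2 := hK N T a m H hN hNT hTA hm hH b hb hs
    simpa only [D_eq N hN b] using h2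
  · obtain ⟨K, hK⟩ := Pool.Agent.T6.H47.AP.classes p A ε hp hε
    refine ⟨K, ?_⟩
    intro N T m c hN hNT hTA hm b hb hs
    have h2 := hK N T m c hN hNT hTA hm b hb hs
    simpa only [D_eq N hN b] using h2

end Pool.Agent.Results.MP_2a1f0e_nt.ArithmeticProgressions
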