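import Pool.Agent.T6.H1.Tw.Fin

/-!
Montgomery's inequality for the twists of a sequence of coefficients by almost every polynomial
phase of degree `J`.
-/

set_option autoImplicit false

namespace Pool.Agent.Results.MP_2a1f0e_nt.PolynomialTwists

open Finset MeasureTheory

/-- `P_θ (n) = θ_1 n + ... + θ_J n^J` -/
noncomputable def P {J : ℕ} (θ : Fin J → ℝ) (n : ℕ) : ℝ := ∑ j : Fin J, θ j * (n : ℝ) ^ ((j : ℕ) + 1)

/-- the twisted Dirichlet polynomial `∑_{N ≤ n ≤ 2 N} b_n e(P_θ(n)) n^{it}` -/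
noncomputable def D {J : ℕ} (b : ℕ → ℂ) (θ : Fin J → ℝ) (N t : ℕ) : ℂ :=
  ∑ n ∈ Icc N (2 * N), b n * Complex.exp (2 * Real.pi * Complex.I * (P θ n : ℝ)) *
    (n : ℂ) ^ (Complex.I * (t : ℂ))

/-- **Montgomery's `ℓ^q` conjecture for almost all polynomial twists.** -/
theorem result (J : ℕ) (b : ℕ → ℂ) (hb : ∀ n, ‖b n‖ ≤ 1) :
    ∀ᵐ θ : Fin J → ℝ, ∀ q : ℝ, 2 ≤ q → ∃ C : ℝ, ∀ N T : ℕ, 1 ≤ N → N ≤ T →
      ∑ t ∈ Icc 1 T, ‖D b θ N t‖ ^ q ≤ C * (1 + Real.log T) ^ (3 * J + 7) *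
        (T * ((N : ℝ) ^ (q / 2) + (N : ℝ) ^ (q - ((J : ℝ) + 1)))) ∧
      ((q ≤ 2 * ((J : ℝ) + 1) ∨ (T : ℝ) ≤ (N : ℝ) ^ (J + 1)) →
        ∑ t ∈ Icc 1 T, ‖D b θ N t‖ ^ q ≤ C * (1 + Real.log T) ^ (3 * J + 7) *
          ((N : ℝ) ^ q + T * (N : ℝ) ^ (q / 2))) := by
  filter_upwards [Pool.Agent.T6.H1.Tw.ae_vol (J := J) b hb] with θ hθ
  obtain ⟨C, hC, h⟩ := hθ
  intro q hq
  obtain ⟨C', hC', h'⟩ := Pool.Agent.T6.H1.Tw.all_q b hb θ C hC h q hq
  refine ⟨2 * C', fun N T hN hT => ?_⟩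
  have hN0 : (0 : ℝ) < N := by exact_mod_cast hN
  have hN1 : (1 : ℝ) ≤ N := by exact_mod_cast hN
  have hT0 : (0 : ℝ) < T := by exact_mod_cast (hN.trans hT)
  have hL : 0 ≤ Real.log T := Real.log_natCast_nonneg _
  have h1 : ∀ t : ℕ, ‖D b θ N t‖ = Pool.Agent.T6.H1.Tw.SS b θ N t := by
    intro t
    unfold D Pool.Agent.T6.H1.Tw.SS Pool.Agent.T6.H1.Tw.fb
    congr 1
    apply sum_congr rfl
    intro n hn
    have hn0 : (n : ℂ) ≠ 0 := by
      have : 1 ≤ n := hN.trans (mem_Icc.1 hn).1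
      exact_mod_cast (by omega : n ≠ 0)
    have h2 : (n : ℂ) ^ (Complex.I * (t : ℂ)) =
        Complex.exp (Complex.I * ((t : ℝ) : ℂ) * Real.log n) := by
      rw [Complex.cpow_def_of_ne_zero hn0, Complex.natCast_log]
      congr 1
      push_cast
      ring
    rw [h2]
    rfl
  simp only [h1]
  have h2 := h' N T hN hT
  have hA : 0 ≤ C' * (1 + Real.log T) ^ (3 * J + 7) := by positivity
  have e : 2 * C' * (1 + Real.log T) ^ (3 * J + 7) = 2 * (C' * (1 + Real.log T) ^ (3 * J + 7)) := by ring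
  rw [e]
  set A := C' * (1 + Real.log T) ^ (3 * J + 7) with hAdef
  constructor
  · refine h2.trans ?_
    have h3 : 0 ≤ T * ((N : ℝ) ^ (q / 2) + (N : ℝ) ^ (q - ((J : ℝ) + 1))) := by positivity
    nlinarith [mul_nonneg hA h3]
  · intro hcase
    refine h2.trans ?_
    have h3 : T * ((N : ℝ) ^ (q / 2) + (N : ℝ) ^ (q - ((J : ℝ) + 1))) ≤
        2 * ((N : ℝ) ^ q + T * (N : ℝ) ^ (q / 2)) := by
      have p1 : 0 ≤ (N : ℝ) ^ q := by positivity
      have p2 : 0 ≤ T * (N : ℝ) ^ (q / 2) := by positivity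
      rcases hcase with h4 | h4
      · have h5 : (N : ℝ) ^ (q - ((J : ℝ) + 1)) ≤ (N : ℝ) ^ (q / 2) :=
          Real.rpow_le_rpow_of_exponent_le hN1 (by linarith)
        have h6 : T * (N : ℝ) ^ (q - ((J : ℝ) + 1)) ≤ T * (N : ℝ) ^ (q / 2) :=
          mul_le_mul_of_nonneg_left h5 hT0.le
        linarith
      · have h5 : T * (N : ℝ) ^ (q - ((J : ℝ) + 1)) ≤ (N : ℝ) ^ q := by
          calc T * (N : ℝ) ^ (q - ((J : ℝ) + 1)) ≤
              (N : ℝ) ^ (J + 1) * (N : ℝ) ^ (q - ((J : ℝ) + 1)) :=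
                mul_le_mul_of_nonneg_right h4 (by positivity)
            _ = (N : ℝ) ^ q := by
                rw [← Real.rpow_natCast, ← Real.rpow_add hN0]
                congr 1
                push_cast
                ring
        linarith
    calc A * (T * ((N : ℝ) ^ (q / 2) + (N : ℝ) ^ (q - ((J : ℝ) + 1))))
        ≤ A * (2 * ((N : ℝ) ^ q + T * (N : ℝ) ^ (q / 2))) := mul_le_mul_of_nonneg_left h3 hA
      _ = 2 * A * ((N : ℝ) ^ q + T * (N : ℝ) ^ (q / 2)) := by ring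

end Pool.Agent.Results.MP_2a1f0e_nt.PolynomialTwists
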