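import Pool.Agent.T6.H1.Rt.Sm

/-!
Montgomery's inequality at random sample times, for all coefficients simultaneously.
-/

set_option autoImplicit false

namespace Pool.Agent.Results.MP_2a1f0e_nt.RandomSampleTimes

open Finset

/-- the Dirichlet polynomial `∑_{N ≤ n ≤ 2 N} b_n n^{it}` -/
noncomputable def D (b : ℕ → ℂ) (N t : ℕ) : ℂ :=
  ∑ n ∈ Icc N (2 * N), b n * (n : ℂ) ^ (Complex.I * (t : ℂ))

/-- `q` is an admissible exponent for `m` sample times: `2 ≤ q ≤ 2 κ` if `m ≥ N^κ`, `q ≥ 2 κ` if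
`m ≤ N^κ`; so every `q ≥ 2` is admissible if `m = N^κ` -/
def Admissible (κ N m : ℕ) (q : ℝ) : Prop :=
  2 ≤ q ∧ ((N ^ κ ≤ m ∧ q ≤ 2 * κ) ∨ (m ≤ N ^ κ ∧ 2 * κ ≤ q))

lemma D_eq (b : ℕ → ℂ) (N t : ℕ) (hN : 1 ≤ N) : D b N t = Pool.Agent.T6.H1.Rt.DS b N t := by
  unfold D Pool.Agent.T6.H1.Rt.DS
  apply sum_congr rfl
  intro n hn
  have hn0 : (n : ℂ) ≠ 0 := by
    have : 1 ≤ n := hN.trans (mem_Icc.1 hn).1
    exact_mod_cast (by omega : n ≠ 0)
  rw [Complex.cpow_def_of_ne_zero hn0, Complex.natCast_log]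
  congr 2
  ring

/-- interpolation below the moment `2 K` -/
lemma holder {K m : ℕ} (hK : 1 ≤ K) (hm : 1 ≤ m) (N : ℕ) (hN : 1 ≤ N) (f : Fin m → ℝ)
    (hf : ∀ j, 0 ≤ f j) (B : ℝ) (hB : 0 ≤ B)
    (h : ∑ j, f j ^ (2 * K) ≤ B * (m * (N : ℝ) ^ K)) (q : ℝ) (hq : 2 ≤ q) (hq2 : q ≤ 2 * K) :
    ∑ j, f j ^ q ≤ (1 + B) * (m * (N : ℝ) ^ (q / 2)) := by
  have hq0 : 0 < q := by linarith
  have hT0 : (0 : ℝ) < m := by exact_mod_cast hm
  have hN0 : (0 : ℝ) < N := by exact_mod_cast hN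
  set p : ℝ := 2 * K / q with hp
  have hp1 : 1 ≤ p := by rw [hp, le_div_iff₀ hq0]; linarith
  have h1 := Real.rpow_sum_le_const_mul_sum_rpow univ (fun j => f j ^ q) hp1
  have h2 : ∀ t, |f t ^ q| = f t ^ q := fun t => abs_of_nonneg (Real.rpow_nonneg (hf t) _)
  simp only [h2] at h1
  have h3 : ∀ t, (f t ^ q) ^ p = f t ^ (2 * K) := by
    intro t
    rw [← Real.rpow_mul (hf t)]
    have : q * p = ((2 * K : ℕ) : ℝ) := by
      rw [hp]
      push_cast
      field_simp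
    rw [this, Real.rpow_natCast]
  simp only [h3] at h1
  rw [card_univ, Fintype.card_fin] at h1
  have h4 : (m : ℝ) ^ (p - 1) * ∑ j, f j ^ (2 * K) ≤
      ((1 + B) * (m * (N : ℝ) ^ (q / 2))) ^ p := by
    calc (m : ℝ) ^ (p - 1) * ∑ j, f j ^ (2 * K)
        ≤ (m : ℝ) ^ (p - 1) * (B * (m * (N : ℝ) ^ K)) :=
          mul_le_mul_of_nonneg_left h (by positivity)
      _ = B * ((m : ℝ) ^ (p - 1) * m) * (N : ℝ) ^ K := by ring
      _ = B * (m : ℝ) ^ p * (N : ℝ) ^ K := by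
          have : (m : ℝ) ^ (p - 1) * m = (m : ℝ) ^ p := by
            nth_rewrite 2 [← Real.rpow_one (m : ℝ)]
            rw [← Real.rpow_add hT0]
            congr 1
            ring
          rw [this]
      _ ≤ (1 + B) ^ p * (m : ℝ) ^ p * (N : ℝ) ^ K := by
          apply mul_le_mul_of_nonneg_right _ (by positivity)
          apply mul_le_mul_of_nonneg_right _ (by positivity)
          calc B ≤ 1 + B := by linarith
            _ = (1 + B) ^ (1 : ℝ) := (Real.rpow_one _).symm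
            _ ≤ (1 + B) ^ p := Real.rpow_le_rpow_of_exponent_le (by linarith) hp1
      _ = ((1 + B) * (m * (N : ℝ) ^ (q / 2))) ^ p := by
          rw [Real.mul_rpow (by linarith) (by positivity), Real.mul_rpow hT0.le (by positivity),
            ← Real.rpow_mul hN0.le]
          have : q / 2 * p = ((K : ℕ) : ℝ) := by
            rw [hp]
            field_simp
          rw [this, Real.rpow_natCast]
          ring
  exact (Real.rpow_le_rpow_iff (sum_nonneg fun t _ => Real.rpow_nonneg (hf t) _) (by positivity)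
    (by linarith)).1 (h1.trans h4)

/-- **Montgomery's conjecture at random sample times.** For all but a proportion
`exp(-N^(ε/2))` of the `m`-tuples of times in `[1, T]` the inequality holds for all the coefficients
and all the admissible exponents. -/
theorem result (κ : ℕ) (hκ : 1 ≤ κ) (ε : ℝ) (hε : 0 < ε) :
    ∃ C : ℝ, ∀ N m T : ℕ, 1 ≤ N → N ^ κ ≤ T →
      (Nat.card {t : Fin m → Icc 1 T // ∃ b : ℕ → ℂ, (∀ n, ‖b n‖ ≤ 1) ∧ ∃ q : ℝ,
        Admissible κ N m q ∧ C * 2 ^ q * (N : ℝ) ^ ε * ((N : ℝ) ^ q + m * (N : ℝ) ^ (q / 2)) <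
          ∑ j, ‖D b N (t j : ℕ)‖ ^ q} : ℝ) ≤
      Real.exp (-(N : ℝ) ^ (ε / 2)) * (T : ℝ) ^ m := by
  classical
  obtain ⟨C, hC, h⟩ := Pool.Agent.T6.H1.Rt.moment2 κ ε hε
  refine ⟨1 + 2 * C, fun N m T hN hT => ?_⟩
  refine le_trans ?_ (h N m T hN hT)
  rw [Nat.card_eq_fintype_card, Fintype.card_subtype]
  have hN0 : (0 : ℝ) < N := by exact_mod_cast hN
  have hN1 : (1 : ℝ) ≤ N := by exact_mod_cast hN
  have hNe : (1 : ℝ) ≤ (N : ℝ) ^ ε := Real.one_le_rpow hN1 hε.le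
  have hmono : (univ.filter (fun t : Fin m → Icc 1 T => ∃ b : ℕ → ℂ, (∀ n, ‖b n‖ ≤ 1) ∧ ∃ q : ℝ,
        Admissible κ N m q ∧ (1 + 2 * C) * 2 ^ q * (N : ℝ) ^ ε *
          ((N : ℝ) ^ q + m * (N : ℝ) ^ (q / 2)) < ∑ j, ‖D b N (t j : ℕ)‖ ^ q)) ⊆
      (univ.filter (fun t : Fin m → Icc 1 T => ∃ b : ℕ → ℂ, (∀ n, ‖b n‖ ≤ 1) ∧
      C * (N : ℝ) ^ ε * ((N : ℝ) ^ (2 * κ) + m * (N : ℝ) ^ κ) <
        ∑ j, ‖Pool.Agent.T6.H1.Rt.DS b N (t j : ℕ)‖ ^ (2 * κ))) := by
    intro t ht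
    rw [mem_filter] at ht ⊢
    refine ⟨mem_univ _, ?_⟩
    obtain ⟨-, b, hb, q, ⟨hq, hcase⟩, hlt⟩ := ht
    refine ⟨b, hb, ?_⟩
    by_contra hcon
    rw [not_lt] at hcon
    apply absurd hlt
    rw [not_lt]
    simp only [D_eq b N _ hN]
    set f : Fin m → ℝ := fun j => ‖Pool.Agent.T6.H1.Rt.DS b N (t j : ℕ)‖ with hf
    have hf0 : ∀ j, 0 ≤ f j := fun j => norm_nonneg _
    have h2q : (1 : ℝ) ≤ 2 ^ q := Real.one_le_rpow (by norm_num) (by linarith)
    have hXn : 0 ≤ (N : ℝ) ^ q := by positivity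
    have hYn : 0 ≤ (m : ℝ) * (N : ℝ) ^ (q / 2) := by positivity
    change ∑ j, f j ^ q ≤ _
    rcases hcase with ⟨h1, h2⟩ | ⟨h1, h2⟩
    · have hm : 1 ≤ m := (Nat.one_le_pow _ _ hN).trans h1
      have h1' : (N : ℝ) ^ κ ≤ m := by exact_mod_cast h1
      have h3 : ∑ j, f j ^ (2 * κ) ≤ (2 * C * (N : ℝ) ^ ε) * (m * (N : ℝ) ^ κ) := by
        refine hcon.trans ?_
        have h4 : (N : ℝ) ^ (2 * κ) ≤ m * (N : ℝ) ^ κ := by
          rw [two_mul, pow_add]
          exact mul_le_mul_of_nonneg_right h1' (by positivity)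
        calc C * (N : ℝ) ^ ε * ((N : ℝ) ^ (2 * κ) + m * (N : ℝ) ^ κ)
            ≤ C * (N : ℝ) ^ ε * (m * (N : ℝ) ^ κ + m * (N : ℝ) ^ κ) :=
              mul_le_mul_of_nonneg_left (by linarith) (by positivity)
          _ = _ := by ring
      have h4 := holder hκ hm N hN f hf0 (2 * C * (N : ℝ) ^ ε) (by positivity) h3 q hq h2
      refine h4.trans ?_
      have h5 : 1 + 2 * C * (N : ℝ) ^ ε ≤ (1 + 2 * C) * 2 ^ q * (N : ℝ) ^ ε := by
        calc 1 + 2 * C * (N : ℝ) ^ ε ≤ (1 + 2 * C) * (N : ℝ) ^ ε := by nlinarith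
          _ = (1 + 2 * C) * 1 * (N : ℝ) ^ ε := by ring
          _ ≤ (1 + 2 * C) * 2 ^ q * (N : ℝ) ^ ε := by
            apply mul_le_mul_of_nonneg_right _ (by positivity)
            exact mul_le_mul_of_nonneg_left h2q (by positivity)
      exact mul_le_mul h5 (by linarith) hYn (by positivity)
    · have h1' : (m : ℝ) ≤ (N : ℝ) ^ κ := by exact_mod_cast h1
      have hbd : ∀ j, f j ≤ 2 * N := by
        intro j
        rw [hf]
        dsimp only
        unfold Pool.Agent.T6.H1.Rt.DS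
        refine (norm_sum_le _ _).trans ?_
        have h3 : ∀ n ∈ Icc N (2 * N), ‖b n * Complex.exp (Complex.I * ((t j : ℕ) : ℂ) * Real.log n)‖ ≤ 1 := by
          intro n _
          have := Pool.Agent.T6.H1.Rt.norm_ex1 (t j : ℕ) n
          unfold Pool.Agent.T6.H1.Rt.ex1 at this
          rw [norm_mul, this, mul_one]
          exact hb n
        refine (sum_le_card_nsmul _ _ _ h3).trans ?_
        rw [Nat.card_Icc, nsmul_eq_mul, mul_one]
        have : 2 * N + 1 - N ≤ 2 * N := by omega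
        exact_mod_cast this
      have h3 : ∀ j ∈ (univ : Finset (Fin m)), f j ^ q ≤ (2 * (N : ℝ)) ^ (q - 2 * κ) * f j ^ (2 * κ) := by
        intro j _
        have h4 : f j ^ q = f j ^ (q - 2 * κ) * f j ^ (2 * κ) := by
          rw [← Real.rpow_natCast, ← Real.rpow_add_of_nonneg (hf0 j) (by linarith) (by positivity)]
          congr 1
          push_cast
          ring
        rw [h4]
        apply mul_le_mul_of_nonneg_right _ (pow_nonneg (hf0 j) _)
        exact Real.rpow_le_rpow (hf0 j) (hbd j) (by linarith)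
      refine (sum_le_sum h3).trans ?_
      rw [← mul_sum]
      have h5 : (2 * (N : ℝ)) ^ (q - 2 * κ) ≤ 2 ^ q * (N : ℝ) ^ (q - 2 * κ) := by
        rw [Real.mul_rpow (by norm_num) hN0.le]
        apply mul_le_mul_of_nonneg_right _ (by positivity)
        apply Real.rpow_le_rpow_of_exponent_le (by norm_num)
        have : (0 : ℝ) ≤ κ := Nat.cast_nonneg κ
        linarith
      have h6 : (N : ℝ) ^ (q - 2 * κ) * (N : ℝ) ^ (2 * κ) = (N : ℝ) ^ q := by
        rw [← Real.rpow_natCast, ← Real.rpow_add hN0]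
        congr 1
        push_cast
        ring
      have h7 : (N : ℝ) ^ (2 * κ) + m * (N : ℝ) ^ κ ≤ 2 * (N : ℝ) ^ (2 * κ) := by
        have : (m : ℝ) * (N : ℝ) ^ κ ≤ (N : ℝ) ^ κ * (N : ℝ) ^ κ :=
          mul_le_mul_of_nonneg_right h1' (by positivity)
        rw [two_mul κ, pow_add]
        linarith
      calc (2 * (N : ℝ)) ^ (q - 2 * κ) * ∑ j, f j ^ (2 * κ)
          ≤ (2 ^ q * (N : ℝ) ^ (q - 2 * κ)) * (C * (N : ℝ) ^ ε * (2 * (N : ℝ) ^ (2 * κ))) := by
            apply mul_le_mul h5 _ (sum_nonneg fun j _ => pow_nonneg (hf0 j) _) (by positivity)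
            exact hcon.trans (mul_le_mul_of_nonneg_left h7 (by positivity))
        _ = (2 * C) * 2 ^ q * (N : ℝ) ^ ε * ((N : ℝ) ^ (q - 2 * κ) * (N : ℝ) ^ (2 * κ)) := by ring
        _ = (2 * C) * 2 ^ q * (N : ℝ) ^ ε * (N : ℝ) ^ q := by rw [h6]
        _ ≤ (1 + 2 * C) * 2 ^ q * (N : ℝ) ^ ε * ((N : ℝ) ^ q + m * (N : ℝ) ^ (q / 2)) := by
            apply mul_le_mul _ (by linarith) hXn (by positivity)
            apply mul_le_mul_of_nonneg_right _ (by positivity)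
            apply mul_le_mul_of_nonneg_right _ (by positivity)
            linarith
  exact_mod_cast card_le_card hmono

end Pool.Agent.Results.MP_2a1f0e_nt.RandomSampleTimes
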