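import Pool.Agent.T6.H1.Rt.Fi

/-!
Montgomery's moment inequality and his large values estimate, for all coefficients simultaneously,
at almost all samples of `m ≤ N^A` times.
-/

set_option autoImplicit false

namespace Pool.Agent.Results.MP_2a1f0e_nt.RandomSamplesEverySize

open Finset

/-- the Dirichlet polynomial `∑_{N ≤ n ≤ 2 N} b_n n^{it}` -/
noncomputable def D (b : ℕ → ℂ) (N t : ℕ) : ℂ :=
  ∑ n ∈ Icc N (2 * N), b n * (n : ℂ) ^ (Complex.I * (t : ℂ))

/-- Montgomery's moment inequality at the times `t_1, ..., t_m`, for all the coefficients and all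
the exponents `q ∈ [2, Q]` -/
def Moments (C ε Q : ℝ) (N m : ℕ) (t : Fin m → ℕ) : Prop :=
  ∀ b : ℕ → ℂ, (∀ n, ‖b n‖ ≤ 1) → ∀ q : ℝ, 2 ≤ q → q ≤ Q →
    ∑ j, ‖D b N (t j)‖ ^ q ≤ C * (N : ℝ) ^ ε * ((N : ℝ) ^ q + m * (N : ℝ) ^ (q / 2))

/-- Montgomery's large values estimate at the times `t_1, ..., t_m`, for all the coefficients -/
def LargeValues (C ε : ℝ) (N m : ℕ) (t : Fin m → ℕ) : Prop :=
  ∀ b : ℕ → ℂ, (∀ n, ‖b n‖ ≤ 1) → ∀ X : ℝ, C * (N : ℝ) ^ (1 / 2 + ε) ≤ X →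
    (Nat.card {j : Fin m // X ≤ ‖D b N (t j)‖} : ℝ) * X ^ 2 ≤ C * (N : ℝ) ^ (2 + ε)

lemma D_eq (b : ℕ → ℂ) (N t : ℕ) (hN : 1 ≤ N) : D b N t = Pool.Agent.T6.H1.Rt.DS b N t := by
  unfold D Pool.Agent.T6.H1.Rt.DS
  apply sum_congr rfl
  intro n hn
  have hn0 : (n : ℂ) ≠ 0 := by
    have : 1 ≤ n := hN.trans (mem_Icc.1 hn).1
    exact_mod_cast (by omega : n ≠ 0)
  rw [Complex.cpow_def_of_ne_zero hn0, Complex.natCast_log]
  congr 2
  ring

/-- **Montgomery's conjectures at almost all samples of polynomial size.** For all `A`, `E`, `Q`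
and `ε > 0` there are `B` and `C` such that if `m ≤ N^A` and `T ≥ N^B`, then all but `C N^(-E) T^m`
of the `m`-tuples of times in `[1, T]` satisfy both inequalities. -/
theorem result (A E : ℕ) (Q ε : ℝ) (hε : 0 < ε) :
    ∃ (B : ℕ) (C : ℝ), ∀ N m T : ℕ, 1 ≤ N → m ≤ N ^ A → N ^ B ≤ T →
      (N : ℝ) ^ E * (Nat.card {t : Fin m → Icc 1 T //
        ¬ (Moments C ε Q N m (fun j => (t j : ℕ)) ∧ LargeValues C ε N m (fun j => (t j : ℕ)))} : ℝ) ≤
      C * (T : ℝ) ^ m := by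
  classical
  obtain ⟨δ, hδ⟩ : ∃ δ : ℝ, δ = ε / (|Q| + 3) := ⟨_, rfl⟩
  have hQ3 : 0 < |Q| + 3 := by positivity
  have hδ0 : 0 < δ := by rw [hδ]; positivity
  have hδQ : δ * Q ≤ ε := by
    have h1 : δ * Q ≤ δ * (|Q| + 3) := mul_le_mul_of_nonneg_left (by linarith [le_abs_self Q]) hδ0.le
    have h2 : δ * (|Q| + 3) = ε := by rw [hδ]; field_simp
    linarith
  have hδ3 : 3 * δ ≤ ε := by
    have h1 : δ * 3 ≤ δ * (|Q| + 3) := mul_le_mul_of_nonneg_left (by linarith [abs_nonneg Q]) hδ0.le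
    have h2 : δ * (|Q| + 3) = ε := by rw [hδ]; field_simp
    linarith
  obtain ⟨B, C0, hC0, h⟩ := Pool.Agent.T6.H1.Rt.core A E δ hδ0
  set C : ℝ := C0 + 34 ^ Q + 2 ^ Q * 1156 * (1 + 1 / δ) + 1200 with hC
  have hQ1 : (0 : ℝ) < 34 ^ Q := by positivity
  have hQ2 : (0 : ℝ) < 2 ^ Q * 1156 * (1 + 1 / δ) := by positivity
  have hCpos : 0 < C := by rw [hC]; positivity
  refine ⟨B, C, fun N m T hN hm hT => ?_⟩
  have hN0 : (0 : ℝ) < N := by exact_mod_cast hN
  have hN1 : (1 : ℝ) ≤ N := by exact_mod_cast hN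
  have hmain := h N m T hN hm hT
  rw [Nat.card_eq_fintype_card, Fintype.card_subtype]
  have hsub : (univ.filter (fun t : Fin m → Icc 1 T =>
      ¬ (Moments C ε Q N m (fun j => (t j : ℕ)) ∧ LargeValues C ε N m (fun j => (t j : ℕ))))) ⊆
      (univ.filter (fun τ : Fin m → Icc 1 T => ∃ (b : ℕ → ℂ) (X : ℝ) (J : Finset (Fin m)),
      (∀ n, ‖b n‖ ≤ 1) ∧ 0 ≤ X ∧ J.card ≤ N ∧
      (∀ j ∈ J, X ≤ ‖Pool.Agent.T6.H1.Rt.DS b N (τ j : ℕ)‖) ∧
      (34 * (Real.sqrt N * (N : ℝ) ^ δ)) ^ 2 * N < J.card * X ^ 2)) := by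
    intro t ht
    rw [mem_filter] at ht ⊢
    refine ⟨mem_univ _, ?_⟩
    by_contra hgood
    apply ht.2
    set G : ℝ := 34 * (Real.sqrt N * (N : ℝ) ^ δ) with hG
    have hG0 : 0 ≤ G := by rw [hG]; positivity
    have hG2 : G ^ 2 * N = 1156 * (N : ℝ) ^ (2 + 2 * δ) := by
      rw [hG, mul_pow, mul_pow, Real.sq_sqrt hN0.le]
      have h1 : (N : ℝ) ^ (2 + 2 * δ) = N * ((N : ℝ) ^ δ) ^ 2 * N := by
        rw [Real.rpow_add hN0, ← Real.rpow_natCast ((N : ℝ) ^ δ), ← Real.rpow_mul hN0.le]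
        have : (N : ℝ) ^ (2 : ℝ) = N * N := by
          rw [Real.rpow_two, sq]
        rw [this]
        push_cast
        ring_nf
      rw [h1]
      norm_num
      ring
    have hG3 : G = 34 * (N : ℝ) ^ (1 / 2 + δ) := by
      rw [hG, Real.rpow_add hN0, Real.sqrt_eq_rpow]
    have hlv : ∀ b : ℕ → ℂ, (∀ n, ‖b n‖ ≤ 1) → ∀ (X : ℝ) (J : Finset (Fin m)), 0 ≤ X → J.card ≤ N →
        (∀ j ∈ J, X ≤ ‖Pool.Agent.T6.H1.Rt.DS b N (t j : ℕ)‖) → J.card * X ^ 2 ≤ G ^ 2 * N := by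
      intro b hb X J hX hJ hj
      by_contra hcon
      exact hgood ⟨b, X, J, hb, hX, hJ, hj, not_le.1 hcon⟩
    refine ⟨?_, ?_⟩
    · -- moments
      intro b hb q hq hqQ
      simp only [D_eq b N _ hN]
      have hbd : ∀ j, ‖Pool.Agent.T6.H1.Rt.DS b N (t j : ℕ)‖ ≤ 2 * N := by
        intro j
        unfold Pool.Agent.T6.H1.Rt.DS
        refine (norm_sum_le _ _).trans ?_
        have h3 : ∀ n ∈ Icc N (2 * N),
            ‖b n * Complex.exp (Complex.I * ((t j : ℕ) : ℂ) * Real.log n)‖ ≤ 1 := by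
          intro n _
          have := Pool.Agent.T6.H1.Rt.norm_ex1 (t j : ℕ) n
          unfold Pool.Agent.T6.H1.Rt.ex1 at this
          rw [norm_mul, this, mul_one]
          exact hb n
        refine (sum_le_card_nsmul _ _ _ h3).trans ?_
        rw [Nat.card_Icc, nsmul_eq_mul, mul_one]
        have : 2 * N + 1 - N ≤ 2 * N := by omega
        exact_mod_cast this
      have h1 := Pool.Agent.T6.H1.Rt.moments (fun j => ‖Pool.Agent.T6.H1.Rt.DS b N (t j : ℕ)‖)
        (fun j => norm_nonneg _) N hN hbd G hG0 (hlv b hb) q hq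
      refine h1.trans ?_
      have hNε : (1 : ℝ) ≤ (N : ℝ) ^ ε := Real.one_le_rpow hN1 hε.le
      -- the small values
      have h2 : m * G ^ q ≤ C * (N : ℝ) ^ ε * (m * (N : ℝ) ^ (q / 2)) := by
        have h3 : G ^ q ≤ 34 ^ Q * ((N : ℝ) ^ ε * (N : ℝ) ^ (q / 2)) := by
          rw [hG3, Real.mul_rpow (by norm_num) (by positivity), ← Real.rpow_mul hN0.le,
            ← Real.rpow_add hN0]
          apply mul_le_mul _ _ (by positivity) (by positivity)
          · exact Real.rpow_le_rpow_of_exponent_le (by norm_num) hqQ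
          · apply Real.rpow_le_rpow_of_exponent_le hN1
            have : δ * q ≤ δ * Q := mul_le_mul_of_nonneg_left hqQ hδ0.le
            linarith
        calc m * G ^ q ≤ m * (34 ^ Q * ((N : ℝ) ^ ε * (N : ℝ) ^ (q / 2))) :=
              mul_le_mul_of_nonneg_left h3 (Nat.cast_nonneg m)
          _ = 34 ^ Q * (m * ((N : ℝ) ^ ε * (N : ℝ) ^ (q / 2))) := by ring
          _ ≤ C * (m * ((N : ℝ) ^ ε * (N : ℝ) ^ (q / 2))) := by
              apply mul_le_mul_of_nonneg_right _ (by positivity)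
              rw [hC]
              linarith
          _ = _ := by ring
      -- the large values
      have h3 : (2 * (N : ℝ)) ^ (q - 2) * (G ^ 2 * N * (1 + Real.log N)) ≤
          C * (N : ℝ) ^ ε * (N : ℝ) ^ q := by
        have h4 : 1 + Real.log N ≤ (1 + 1 / δ) * (N : ℝ) ^ δ := by
          have h5 := Real.log_le_rpow_div hN0.le hδ0
          have h6 : (1 : ℝ) ≤ (N : ℝ) ^ δ := Real.one_le_rpow hN1 hδ0.le
          calc 1 + Real.log N ≤ (N : ℝ) ^ δ + (N : ℝ) ^ δ / δ := by linarith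
            _ = _ := by ring
        have h5 : (2 * (N : ℝ)) ^ (q - 2) ≤ 2 ^ Q * (N : ℝ) ^ (q - 2) := by
          rw [Real.mul_rpow (by norm_num) hN0.le]
          apply mul_le_mul_of_nonneg_right _ (by positivity)
          exact Real.rpow_le_rpow_of_exponent_le (by norm_num) (by linarith)
        have hlog : 0 ≤ Real.log N := Real.log_nonneg hN1
        rw [hG2]
        calc (2 * (N : ℝ)) ^ (q - 2) * (1156 * (N : ℝ) ^ (2 + 2 * δ) * (1 + Real.log N))
            ≤ (2 ^ Q * (N : ℝ) ^ (q - 2)) *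
              (1156 * (N : ℝ) ^ (2 + 2 * δ) * ((1 + 1 / δ) * (N : ℝ) ^ δ)) := by
              apply mul_le_mul h5 _ (by positivity) (by positivity)
              exact mul_le_mul_of_nonneg_left h4 (by positivity)
          _ = 2 ^ Q * 1156 * (1 + 1 / δ) * ((N : ℝ) ^ (q - 2) * (N : ℝ) ^ (2 + 2 * δ) * (N : ℝ) ^ δ) := by
              ring
          _ = 2 ^ Q * 1156 * (1 + 1 / δ) * (N : ℝ) ^ (q + 3 * δ) := by
              rw [← Real.rpow_add hN0, ← Real.rpow_add hN0]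
              congr 2
              ring
          _ ≤ C * ((N : ℝ) ^ ε * (N : ℝ) ^ q) := by
              rw [← Real.rpow_add hN0]
              apply mul_le_mul _ _ (by positivity) hCpos.le
              · rw [hC]
                linarith
              · apply Real.rpow_le_rpow_of_exponent_le hN1
                linarith
          _ = _ := by ring
      rw [mul_add]
      linarith
    · -- large values
      intro b hb X hX
      have hX2 : G < X := by
        refine lt_of_lt_of_le ?_ hX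
        rw [hG3]
        have h1 : (N : ℝ) ^ (1 / 2 + δ) ≤ (N : ℝ) ^ (1 / 2 + ε) :=
          Real.rpow_le_rpow_of_exponent_le hN1 (by linarith)
        have h2 : (0 : ℝ) < (N : ℝ) ^ (1 / 2 + ε) := by positivity
        have h3 : (34 : ℝ) < C := by rw [hC]; linarith
        calc 34 * (N : ℝ) ^ (1 / 2 + δ) ≤ 34 * (N : ℝ) ^ (1 / 2 + ε) :=
              mul_le_mul_of_nonneg_left h1 (by norm_num)
          _ < C * (N : ℝ) ^ (1 / 2 + ε) := mul_lt_mul_of_pos_right h3 h2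
      have h1 := (Pool.Agent.T6.H1.Rt.lvfull
        (fun j => ‖Pool.Agent.T6.H1.Rt.DS b N (t j : ℕ)‖) N hN G hG0 (hlv b hb) X hX2
        (univ.filter (fun j => X ≤ ‖Pool.Agent.T6.H1.Rt.DS b N (t j : ℕ)‖))
        (fun j hj => (mem_filter.1 hj).2)).2
      simp only [D_eq b N _ hN]
      rw [Nat.card_eq_fintype_card, Fintype.card_subtype]
      refine h1.trans ?_
      rw [hG2]
      apply mul_le_mul _ _ (by positivity) hCpos.le
      · rw [hC]
        linarith
      · apply Real.rpow_le_rpow_of_exponent_le hN1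
        linarith
  have h5 : (((univ.filter (fun t : Fin m → Icc 1 T =>
      ¬ (Moments C ε Q N m (fun j => (t j : ℕ)) ∧ LargeValues C ε N m (fun j => (t j : ℕ))))).card : ℕ) : ℝ) ≤
      C0 * ((N : ℝ) ^ E)⁻¹ * (T : ℝ) ^ m := by
    refine le_trans ?_ hmain
    exact_mod_cast card_le_card hsub
  have hNE : (0 : ℝ) < (N : ℝ) ^ E := by positivity
  calc (N : ℝ) ^ E * (((univ.filter (fun t : Fin m → Icc 1 T =>
      ¬ (Moments C ε Q N m (fun j => (t j : ℕ)) ∧ LargeValues C ε N m (fun j => (t j : ℕ))))).card : ℕ) : ℝ)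
      ≤ (N : ℝ) ^ E * (C0 * ((N : ℝ) ^ E)⁻¹ * (T : ℝ) ^ m) := mul_le_mul_of_nonneg_left h5 hNE.le
    _ = C0 * (T : ℝ) ^ m := by
        field_simp
    _ ≤ C * (T : ℝ) ^ m := by
        apply mul_le_mul_of_nonneg_right _ (by positivity)
        rw [hC]
        linarith

end Pool.Agent.Results.MP_2a1f0e_nt.RandomSamplesEverySize
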